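import Pool.Agent.H33.HH.TC
import Pool.Agent.H3.CV.GC

/-!
# IDF: finite sets of primes and ideals (MP_347b49_nt)
-/

set_option autoImplicit false

open NumberField
open scoped nonZeroDivisors

namespace Pool.Agent.H57.HH

open Pool.Agent.H33.HH Pool.Agent.H28.RC Pool.Agent.H37.CV Pool.Agent.H25.HK Pool.Agent.H3.CV

section

variable {K : Type} [Field K] [NumberField K]

theorem fin_np (M : ℝ) : {P : PrI K | np P ≤ M}.Finite := by
  refine Set.Finite.of_finite_image (f := Subtype.val) ?_ Subtype.val_injective.injOn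
  refine (Ideal.finite_setOfPred_absNorm_le (S := 𝓞 K) ⌊M⌋₊).subset ?_
  rintro _ ⟨P, hP, rfl⟩
  have h1 : np P ≤ M := hP
  unfold np nm at h1
  exact Nat.le_floor h1

theorem mem_PM {M : ℝ} {P : PrI K} : P ∈ PM K M ↔ np P ≤ M := by
  unfold PM
  rw [dif_pos (fin_np M)]
  simp

theorem np_two (P : PrI K) : 2 ≤ np P := by
  unfold np nm
  have h0 : Ideal.absNorm P.1 ≠ 0 := fun h => P.2.2 (Ideal.absNorm_eq_zero_iff.1 h)
  have h1 : Ideal.absNorm P.1 ≠ 1 := fun h => P.2.1.ne_top (Ideal.absNorm_eq_one_iff.1 h)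
  have h2 : 2 ≤ Ideal.absNorm P.1 := by omega
  exact_mod_cast h2

theorem one_le_nS (S : Finset (PrI K)) : 1 ≤ nS np S := by
  unfold nS
  refine Finset.prod_induction _ (fun x => (1 : ℝ) ≤ x) (fun a b ha hb => ?_) le_rfl fun P _ => ?_
  · nlinarith
  · have := np_two P
    linarith

theorem idS_le_mem {S : Finset (PrI K)} {P : PrI K} (h : P ∈ S) : idS S ≤ P.1 :=
  Ideal.dvd_iff_le.1 (Finset.dvd_prod_of_mem (fun P : PrI K => P.1) h)

theorem mem_DP {P y : ℝ} {S : Finset (PrI K)} :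
    S ∈ DP K P y ↔ (∀ p ∈ S, P < np p ∧ np p ≤ y) ∧ nS np S ≤ y := by
  classical
  unfold DP DS AP
  rw [Finset.mem_filter, Finset.mem_powerset]
  refine and_congr_left fun _ => ⟨fun h p hp => ?_, fun h p hp => ?_⟩
  · have h1 := h hp
    rw [Finset.mem_sdiff, mem_PM, mem_PM, not_le] at h1
    exact ⟨h1.2, h1.1⟩
  · rw [Finset.mem_sdiff, mem_PM, mem_PM, not_le]
    exact ⟨(h p hp).2, (h p hp).1⟩

theorem pf_idS (S : Finset (PrI K)) : pf (idS S) = S := by
  ext p
  rw [mem_pf (idS_ne S)]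
  exact ⟨idS_le, idS_le_mem⟩

theorem sup_dvd (S : Finset (PrI K)) {b l : Ideal (𝓞 K)} (hl : l ≠ ⊥) :
    idS S ⊔ l ∣ b ↔ ∀ p ∈ S, l ≤ p.1 → b ≤ p.1 := by
  classical
  constructor
  · intro h p hp hlp
    exact (Ideal.dvd_iff_le.1 h).trans (sup_le (idS_le_mem hp) hlp)
  · intro h
    have h1 : idS (S.filter fun p => l ≤ p.1) ∣ b := idS_dvd fun p hp =>
      h p (Finset.mem_filter.1 hp).1 (Finset.mem_filter.1 hp).2
    refine dvd_trans ?_ h1
    have h2 : idS (S.filter fun p => ¬ l ≤ p.1) ⊔ l = ⊤ := by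
      by_contra h3
      obtain ⟨m, hm, hle⟩ := Ideal.exists_le_maximal _ h3
      have hl' : l ≤ m := le_sup_right.trans hle
      have hm0 : m ≠ ⊥ := by
        rintro rfl
        exact hl (le_bot_iff.1 hl')
      have h4 : (⟨m, hm.isPrime, hm0⟩ : PrI K) ∈ S.filter fun p => ¬ l ≤ p.1 :=
        idS_le (le_sup_left.trans hle)
      exact (Finset.mem_filter.1 h4).2 hl'
    rw [Ideal.dvd_iff_le]
    have h5 : idS S = idS (S.filter fun p => l ≤ p.1) * idS (S.filter fun p => ¬ l ≤ p.1) := by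
      unfold idS
      exact (Finset.prod_filter_mul_prod_filter_not S _ _).symm
    calc idS (S.filter fun p => l ≤ p.1)
        = idS (S.filter fun p => l ≤ p.1) * (idS (S.filter fun p => ¬ l ≤ p.1) ⊔ l) := by
          rw [h2, Ideal.mul_top]
      _ = idS S ⊔ idS (S.filter fun p => l ≤ p.1) * l := by
          rw [Ideal.mul_sup, h5]
      _ ≤ idS S ⊔ l := sup_le_sup_left Ideal.mul_le_right _

end

/-- IDF -/
theorem pf_IDF : T_IDF := by
  intro K _ _ _ P y hy S hS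
  obtain ⟨h1, h2⟩ := mem_DP.1 hS
  refine ⟨idS_ne S, fun p hp => (h1 p (idS_le hp)).1, nm_idS S, one_le_nS S, h2, pf_idS S, h1,
    fun b l _ hl _ => sup_dvd S hl⟩

end Pool.Agent.H57.HH
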