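import Pool.Agent.H57.HH.IDF

/-!
# Multiplicators of ideals and finite sums over ideals (MP_347b49_nt)
-/

set_option autoImplicit false

open NumberField
open scoped nonZeroDivisors

namespace Pool.Agent.H57.HH

open Pool.Agent.H33.HH Pool.Agent.H28.RC Pool.Agent.H37.CV Pool.Agent.H25.HK Pool.Agent.H3.CV

section

variable {K : Type} [Field K] [NumberField K]

theorem fin_NI (M : ℝ) : {I : NI K | nm I.1 ≤ M}.Finite := by
  refine Set.Finite.of_finite_image (f := Subtype.val) ?_ Subtype.val_injective.injOn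
  refine (Ideal.finite_setOfPred_absNorm_le (S := 𝓞 K) ⌊M⌋₊).subset ?_
  rintro _ ⟨P, hP, rfl⟩
  have h1 : nm P.1 ≤ M := hP
  unfold nm at h1
  exact Nat.le_floor h1

theorem nm_pos {I : Ideal (𝓞 K)} (hI : I ≠ ⊥) : 0 < nm I := by
  unfold nm
  have h0 : Ideal.absNorm I ≠ 0 := fun h => hI (Ideal.absNorm_eq_zero_iff.1 h)
  exact_mod_cast Nat.pos_of_ne_zero h0

open scoped Classical in
theorem sumC_eq {P M : ℝ} {f : Ideal (𝓞 K) → ℝ} (h : ∀ I, I ≠ ⊥ → Cp P I → M < nm I → f I = 0) :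
    sumC P f = ∑ I ∈ (fin_NI M).toFinset, if Cp P I.1 then f I.1 else 0 := by
  unfold sumC
  refine tsum_eq_sum fun I hI => ?_
  rw [Set.Finite.mem_toFinset, Set.mem_ofPred_eq, not_le] at hI
  split_ifs with hc
  · exact h I.1 I.2 hc hI
  · rfl

theorem mu_unique {γ : K} {I J J' : Ideal (𝓞 K)} (h : Mu γ I J) (h' : Mu γ I J') : J = J' := by
  unfold Mu at h h'
  exact FractionalIdeal.coeIdeal_injective (h.symm.trans h')

theorem mu_zero {I J : Ideal (𝓞 K)} : Mu (0 : K) I J ↔ J = ⊥ := by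
  unfold Mu
  rw [FractionalIdeal.spanSingleton_zero, zero_mul]
  exact eq_comm.trans FractionalIdeal.coeIdeal_eq_zero

theorem mu_one {I J : Ideal (𝓞 K)} : Mu (1 : K) I J ↔ I = J := by
  unfold Mu
  rw [FractionalIdeal.spanSingleton_one, one_mul]
  exact FractionalIdeal.coeIdeal_inj

theorem mu_ne {γ : K} {I J : Ideal (𝓞 K)} (h : Mu γ I J) (hI : I ≠ ⊥) (hγ : γ ≠ 0) : J ≠ ⊥ := by
  unfold Mu at h
  rw [← FractionalIdeal.coeIdeal_ne_zero (K := K), ← h]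
  exact mul_ne_zero (fun h1 => hγ (FractionalIdeal.spanSingleton_eq_zero_iff.1 h1))
    (FractionalIdeal.coeIdeal_ne_zero.2 hI)

theorem mu_ne' {γ : K} {I J : Ideal (𝓞 K)} (h : Mu γ I J) (hJ : J ≠ ⊥) : γ ≠ 0 := by
  rintro rfl
  exact hJ (mu_zero.1 h)

theorem mu_inv {γ : K} {I J : Ideal (𝓞 K)} (h : Mu γ I J) (hγ : γ ≠ 0) : Mu γ⁻¹ J I := by
  unfold Mu at h ⊢
  rw [← h, ← mul_assoc, FractionalIdeal.spanSingleton_mul_spanSingleton, inv_mul_cancel₀ hγ,
    FractionalIdeal.spanSingleton_one, one_mul]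

theorem mu_fin [Finite (𝓞 K)ˣ] {I J : Ideal (𝓞 K)} (hJ : J ≠ ⊥) :
    {γ : K | Mu γ I J}.Finite := by
  rcases Set.eq_empty_or_nonempty {γ : K | Mu γ I J} with h | ⟨γ₀, h₀⟩
  · rw [h]
    exact Set.finite_empty
  have h₀' : Mu γ₀ I J := h₀
  refine (Set.finite_range fun u : (𝓞 K)ˣ => γ₀ * ((u : 𝓞 K) : K)).subset ?_
  intro γ hγ
  have hγ' : Mu γ I J := hγ
  have g0 : γ₀ ≠ 0 := mu_ne' h₀' hJ
  have g1 : γ ≠ 0 := mu_ne' hγ' hJ
  have key : ∀ x y : K, Mu x I J → Mu y I J → y ≠ 0 →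
      ∃ a : 𝓞 K, (a : K) = x / y := by
    intro x y hx hy hy0
    have h1 : FractionalIdeal.spanSingleton (𝓞 K)⁰ (x / y) * (J : FractionalIdeal (𝓞 K)⁰ K) =
        1 * (J : FractionalIdeal (𝓞 K)⁰ K) := by
      unfold Mu at hx hy
      conv_lhs => rw [← hy, ← mul_assoc, FractionalIdeal.spanSingleton_mul_spanSingleton,
        div_mul_cancel₀ _ hy0, hx]
      rw [one_mul]
    have h2 := mul_right_cancel₀ (FractionalIdeal.coeIdeal_ne_zero.2 hJ) h1
    have h3 : x / y ∈ (1 : FractionalIdeal (𝓞 K)⁰ K) := by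
      rw [← h2]
      exact FractionalIdeal.mem_spanSingleton_self _ _
    exact (FractionalIdeal.mem_one_iff _).1 h3
  obtain ⟨a, ha⟩ := key γ γ₀ hγ' h₀' g0
  obtain ⟨b, hb⟩ := key γ₀ γ h₀' hγ' g1
  have hab : a * b = 1 := by
    apply RingOfIntegers.coe_injective
    rw [map_mul, map_one]
    change (a : K) * (b : K) = 1
    rw [ha, hb]
    field_simp
  refine ⟨⟨a, b, hab, by rw [mul_comm]; exact hab⟩, ?_⟩
  change γ₀ * (a : K) = γ
  rw [ha]
  field_simp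

end

end Pool.Agent.H57.HH
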