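import Pool.Agent.H57.HH.UNB

/-!
# UN1: the sum over the conductors for a pair of ideals (MP_347b49_nt)
-/

set_option autoImplicit false

open NumberField
open scoped nonZeroDivisors

namespace Pool.Agent.H57.HH

open Pool.Agent.H33.HH Pool.Agent.H28.RC Pool.Agent.H37.CV Pool.Agent.H25.HK Pool.Agent.H3.CV

open scoped Classical in
theorem kap_eq {K : Type} [Field K] [NumberField K] (f A B : Ideal (𝓞 K))
    [Fintype {γ : K // Mu γ B A}] :
    (kap f A B : ℝ) = ∑ γ : {γ : K // Mu γ B A},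
      if ∃ t, Mu (γ.1 - 1) B (f * t) then (1 : ℝ) else 0 := by
  rw [Finset.sum_boole]
  congr 1
  unfold kap
  rw [← Finset.card_map ⟨Subtype.val, Subtype.val_injective⟩, ← Set.ncard_coe_finset]
  congr 1
  ext γ
  simp only [Set.mem_ofPred_eq, Finset.coe_map, Function.Embedding.coeFn_mk, Set.mem_image,
    Finset.mem_coe, Finset.mem_filter, Finset.mem_univ, true_and]
  constructor
  · rintro ⟨h1, h2⟩
    exact ⟨⟨γ, h1⟩, h2, rfl⟩
  · rintro ⟨⟨γ', h1⟩, h2, rfl⟩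
    exact ⟨h1, h2⟩

open scoped Classical in
theorem term {K : Type} [Field K] [NumberField K] {P Q : ℝ} {W : ℝ → ℝ} (hQ : 0 < Q)
    {B k : Ideal (𝓞 K)} (hB : B ≠ ⊥) (hk : k ≠ ⊥) {γ : K} (hγ : γ ≠ 1)
    (hnm : ∀ (γ : K) (I J : Ideal (𝓞 K)), Mu γ I J → ‖em K γ‖ ^ 2 * nm I = nm J) :
    ∑' q : NI K, (if Cp P q.1 ∧ ∃ t, Mu (γ - 1) B (k * q.1 * t) then W (nm q.1 / Q) * nm q.1
      else 0) = Uw P Q W k B γ := by
  have h0 : γ - 1 ≠ 0 := sub_ne_zero.2 hγ
  unfold Uw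
  symm
  let F : NI K → ℝ := fun q => if Cp P q.1 ∧ ∃ t, Mu (γ - 1) B (k * q.1 * t) then
    W (nm q.1 / Q) * nm q.1 else 0
  have hF : ∀ x : Function.support F, Cp P x.1.1 ∧ ∃ t, Mu (γ - 1) B (k * x.1.1 * t) := by
    rintro ⟨x, hx⟩
    by_contra h1
    exact hx (if_neg h1)
  have hF2 : ∀ x : Function.support F, ∃ t : NI K, Mu (γ - 1) B (k * x.1.1 * t.1) := by
    intro x
    obtain ⟨_, t, ht⟩ := hF x
    refine ⟨⟨t, ?_⟩, ht⟩
    rintro rfl
    exact mu_ne ht hB h0 (by rw [Ideal.mul_bot])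
  choose i hi using hF2
  refine tsum_eq_tsum_of_ne_zero_bij (g := F) i ?_ ?_ ?_
  · intro x y hxy
    have h1 := mu_unique (hi x) (hxy ▸ hi y)
    have h2 : k * x.1.1 = k * y.1.1 := mul_right_cancel₀ (i x).2 h1
    exact Subtype.ext (Subtype.ext (mul_left_cancel₀ hk h2))
  · intro l hl
    by_cases hc : ∃ q, q ≠ ⊥ ∧ Cp P q ∧ Mu (γ - 1) B (k * l.1 * q)
    swap
    · exact absurd (if_neg hc) hl
    obtain ⟨q, hq, hq2, hq3⟩ := hc
    have hl' : Q * w1 W (‖em K γ - 1‖ ^ 2 * nm B / (nm k * nm l.1 * Q)) ≠ 0 := by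
      have h3 := hl
      rw [Function.mem_support, if_pos ⟨q, hq, hq2, hq3⟩] at h3
      exact h3
    have h4 := hnm _ _ _ hq3
    rw [map_sub, map_one, nm_mul, nm_mul] at h4
    have e1 := (nm_pos hk).ne'
    have e2 := (nm_pos l.2).ne'
    have h5 : ‖em K γ - 1‖ ^ 2 * nm B / (nm k * nm l.1 * Q) = nm q / Q := by
      rw [h4]
      field_simp
    have h6 : (⟨q, hq⟩ : NI K) ∈ Function.support F := by
      have h7 : F ⟨q, hq⟩ = W (nm q / Q) * nm q :=
        if_pos ⟨hq2, l.1, by rw [mul_assoc, mul_comm q, ← mul_assoc]; exact hq3⟩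
      rw [Function.mem_support, h7]
      intro h8
      refine hl' ?_
      rw [h5]
      unfold w1
      calc Q * (nm q / Q * W (nm q / Q)) = W (nm q / Q) * nm q := by field_simp
        _ = 0 := h8
    refine ⟨⟨_, h6⟩, ?_⟩
    have h8 := hi ⟨_, h6⟩
    have h9 := mu_unique h8 hq3
    change k * q * (i ⟨_, h6⟩).1 = k * l.1 * q at h9
    rw [mul_assoc, mul_assoc] at h9
    have h10 := mul_left_cancel₀ hk h9
    rw [mul_comm l.1 q] at h10
    exact Subtype.ext (mul_left_cancel₀ hq h10)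
  · intro x
    obtain ⟨h1, h2⟩ := hF x
    have h3 := hi x
    have h3' : Mu (γ - 1) B (k * (i x).1 * x.1.1) := by
      rw [mul_assoc, mul_comm (i x).1, ← mul_assoc]
      exact h3
    have h4 := hnm _ _ _ h3'
    rw [map_sub, map_one, nm_mul, nm_mul] at h4
    have e1 := (nm_pos hk).ne'
    have e2 := (nm_pos (i x).2).ne'
    have h5 : ‖em K γ - 1‖ ^ 2 * nm B / (nm k * nm (i x).1 * Q) = nm x.1.1 / Q := by
      rw [h4]
      field_simp
    have h6 : F x.1 = W (nm x.1.1 / Q) * nm x.1.1 := if_pos ⟨h1, h2⟩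
    rw [if_pos ⟨x.1.1, x.1.2, h1, h3'⟩, h5, h6]
    unfold w1
    field_simp

/-- UN1 -/
theorem pf_UN1 (h : T_NRM) : T_UN1 := by
  classical
  intro K _ _ _ P Q W hQ hW A B k hA hB hk
  obtain ⟨_, _, hfin, _, _, _, hnm⟩ := h K
  haveI := hfin
  have hk0 : k ≠ ⊥ := hk.1
  haveI : Finite {γ : K // Mu γ B A} := (mu_fin (K := K) (I := B) hA).to_subtype
  letI := Fintype.ofFinite {γ : K // Mu γ B A}
  have hW0 : ∀ q : Ideal (𝓞 K), Q < nm q → W (nm q / Q) = 0 := fun q hq =>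
    hW.high _ ((one_le_div hQ).2 hq.le)
  rw [sumC_eq (M := Q) (fun q _ _ hq => by rw [hW0 q hq]; ring), tsum_fintype]
  have hT : TW K P Q W = ∑ q ∈ (fin_NI Q).toFinset, if Cp P q.1 then W (nm q.1 / Q) * nm q.1
      else 0 := sumC_eq fun q _ _ hq => by rw [hW0 q hq]; ring
  have h1 : ∀ q : NI K, (if Cp P q.1 then W (nm q.1 / Q) * nm q.1 * (kap (k * q.1) A B : ℝ)
      else 0) = ∑ γ : {γ : K // Mu γ B A}, if Cp P q.1 ∧ ∃ t, Mu (γ.1 - 1) B (k * q.1 * t)
        then W (nm q.1 / Q) * nm q.1 else 0 := by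
    intro q
    by_cases hc : Cp P q.1
    · rw [if_pos hc, kap_eq, Finset.mul_sum]
      refine Finset.sum_congr rfl fun γ _ => ?_
      by_cases ht : ∃ t, Mu (γ.1 - 1) B (k * q.1 * t)
      · rw [if_pos ht, if_pos ⟨hc, ht⟩, mul_one]
      · rw [if_neg ht, if_neg fun h => ht h.2, mul_zero]
    · rw [if_neg hc, Finset.sum_eq_zero]
      intro γ _
      rw [if_neg fun h => hc h.1]
  rw [Finset.sum_congr rfl fun q _ => h1 q, Finset.sum_comm]
  have h2 : ∀ γ : {γ : K // Mu γ B A}, (∑ q ∈ (fin_NI Q).toFinset,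
      if Cp P q.1 ∧ ∃ t, Mu (γ.1 - 1) B (k * q.1 * t) then W (nm q.1 / Q) * nm q.1 else 0) =
      (if γ.1 = 1 then TW K P Q W else 0) + Uw P Q W k B γ.1 := by
    rintro ⟨γ, hγ⟩
    by_cases hg : γ = 1
    · subst hg
      rw [if_pos rfl, hT]
      have h3 : Uw P Q W k B (1 : K) = 0 := by
        unfold Uw
        refine (tsum_congr fun l => if_neg ?_).trans tsum_zero
        rintro ⟨q, hq, _, hq2⟩
        rw [sub_self] at hq2
        exact mul_ne_zero (mul_ne_zero hk0 l.2) hq (mu_zero.1 hq2)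
      rw [h3, add_zero]
      refine Finset.sum_congr rfl fun q _ => ?_
      refine if_congr ?_ rfl rfl
      refine and_iff_left ⟨⊥, ?_⟩
      rw [sub_self]
      exact mu_zero.2 (Ideal.mul_bot _)
    · rw [if_neg hg, zero_add, ← term hQ hB hk0 hg hnm]
      symm
      refine tsum_eq_sum fun q hq => ?_
      rw [Set.Finite.mem_toFinset, Set.mem_ofPred_eq, not_le] at hq
      rw [hW0 _ hq]
      simp
  rw [Finset.sum_congr rfl fun γ _ => h2 γ, Finset.sum_add_distrib]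
  congr 1
  by_cases hAB : A = B
  · rw [if_pos hAB]
    have h4 : Mu (1 : K) B A := mu_one.2 hAB.symm
    rw [Finset.sum_eq_single (⟨1, h4⟩ : {γ : K // Mu γ B A})]
    · rw [if_pos rfl]
    · intro γ _ hγ
      exact if_neg fun h5 => hγ (Subtype.ext h5)
    · intro h5
      exact absurd (Finset.mem_univ _) h5
  · rw [if_neg hAB]
    refine Finset.sum_eq_zero fun γ _ => if_neg ?_
    intro h5
    have h6 := γ.2
    rw [h5] at h6
    exact hAB (mu_one.1 h6).symm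

end Pool.Agent.H57.HH
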