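import Pool.Agent.H57.HH.UNB

/-!
# UNF: the second moment as a sum over `γ` (MP_347b49_nt)
-/

set_option autoImplicit false

open NumberField
open scoped nonZeroDivisors

namespace Pool.Agent.H57.HH

open Pool.Agent.H33.HH Pool.Agent.H28.RC Pool.Agent.H37.CV Pool.Agent.H25.HK Pool.Agent.H3.CV

open scoped Classical in
/-- the sum over the divisors and the `γ`, for a fixed ideal `B` -/
theorem swap {K : Type} [Field K] [NumberField K] [Finite (𝓞 K)ˣ] {P Q M : ℝ} {W : ℝ → ℝ}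
    (hQ : 0 < Q) {δ : ℝ} (hδ : 0 < δ) (hW : ∀ u, u ≤ δ → W u = 0)
    {a B k : Ideal (𝓞 K)} (ha : a ≠ ⊥) (hk : k ≠ ⊥) (g : K → ℝ)
    (hg : ∀ (γ : K) (m : Ideal (𝓞 K)), m ≠ ⊥ → Cp P m → Mu γ B (a * m) → M < nm m → g γ = 0) :
    ∑' l : NI K, ∑' γ : Ga P a B (k * l.1), g γ.1 *
      (Q * w1 W (‖em K γ.1 - 1‖ ^ 2 * nm B / (nm k * nm l.1 * Q))) =
    ∑ m ∈ (fin_NI M).toFinset, if Cp P m.1 then
      ∑' γ : {γ : K // Mu γ B (a * m.1)}, g γ.1 * Uw P Q W k B γ.1 else 0 := by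
  let c1 : K → Prop := fun γ => ∃ m, m ≠ ⊥ ∧ Cp P m ∧ Mu γ B (a * m)
  let h : NI K → K → ℝ := fun l γ => Q * w1 W (‖em K γ - 1‖ ^ 2 * nm B / (nm k * nm l.1 * Q))
  let f : NI K → K → ℝ := fun l γ => if γ ∈ Ga P a B (k * l.1) then g γ * h l γ else 0
  have hΓ : {γ : K | ∃ m ∈ {I : NI K | nm I.1 ≤ M}, Mu γ B (a * m.1)}.Finite := by
    have h1 : {γ : K | ∃ m ∈ {I : NI K | nm I.1 ≤ M}, Mu γ B (a * m.1)} =
        ⋃ m ∈ {I : NI K | nm I.1 ≤ M}, {γ : K | Mu γ B (a * m.1)} := by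
      ext γ
      simp only [Set.mem_ofPred_eq, Set.mem_iUnion, exists_prop]
    rw [h1]
    exact (fin_NI M).biUnion fun m _ => mu_fin (mul_ne_zero ha m.2)
  have hgΓ : ∀ γ, c1 γ → g γ ≠ 0 → γ ∈ {γ : K | ∃ m ∈ {I : NI K | nm I.1 ≤ M}, Mu γ B (a * m.1)} := by
    rintro γ ⟨m, hm, hm2, hm3⟩ h1
    refine ⟨⟨m, hm⟩, ?_, hm3⟩
    by_contra h2
    exact h1 (hg γ m hm hm2 hm3 (not_le.1 h2))
  have hsup : ∀ l γ, h l γ ≠ 0 → nm l.1 ≤ ‖em K γ - 1‖ ^ 2 * nm B / (nm k * Q * δ) := by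
    intro l γ h1
    have h2 : ¬ ‖em K γ - 1‖ ^ 2 * nm B / (nm k * nm l.1 * Q) ≤ δ := fun h3 => h1 (by
      change Q * w1 W _ = 0
      unfold w1
      rw [hW _ h3]
      ring)
    have e1 := nm_pos hk
    have e2 := nm_pos l.2
    rw [not_le, lt_div_iff₀ (by positivity)] at h2
    rw [le_div_iff₀ (by positivity)]
    linarith
  have hfs : Summable (Function.uncurry f) := by
    refine summable_of_hasFiniteSupport ?_
    refine Set.Finite.subset (hΓ.biUnion fun γ _ =>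
      (fin_NI (‖em K γ - 1‖ ^ 2 * nm B / (nm k * Q * δ))).image fun l => (l, γ)) ?_
    rintro ⟨l, γ⟩ hlγ
    have h1 : f l γ ≠ 0 := hlγ
    have h2 : γ ∈ Ga P a B (k * l.1) := by
      by_contra h3
      exact h1 (if_neg h3)
    have h3 : g γ * h l γ ≠ 0 := by
      have h4 : f l γ = g γ * h l γ := if_pos h2
      rwa [h4] at h1
    obtain ⟨h4, h5⟩ := mul_ne_zero_iff.1 h3
    simp only [Set.mem_iUnion, exists_prop, Set.mem_image]
    exact ⟨γ, hgΓ γ h2.1 h4, l, hsup l γ h5, rfl⟩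
  have e1 : ∀ l : NI K, ∑' γ : Ga P a B (k * l.1), g γ.1 *
      (Q * w1 W (‖em K γ.1 - 1‖ ^ 2 * nm B / (nm k * nm l.1 * Q))) = ∑' γ : K, f l γ := by
    intro l
    rw [tsum_subtype (Ga P a B (k * l.1)) fun γ => g γ *
      (Q * w1 W (‖em K γ - 1‖ ^ 2 * nm B / (nm k * nm l.1 * Q)))]
    rfl
  have e2 : ∀ γ : K, ∑' l, f l γ = if c1 γ then g γ * Uw P Q W k B γ else 0 := by
    intro γ
    by_cases hc : c1 γ
    · rw [if_pos hc]
      unfold Uw
      rw [← tsum_mul_left]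
      refine tsum_congr fun l => ?_
      by_cases h1 : ∃ q, q ≠ ⊥ ∧ Cp P q ∧ Mu (γ - 1) B (k * l.1 * q)
      · rw [if_pos h1]
        exact if_pos ⟨hc, h1⟩
      · rw [if_neg h1, mul_zero]
        exact if_neg fun h2 => h1 h2.2
    · rw [if_neg hc]
      exact (tsum_congr fun l => if_neg fun h1 => hc h1.1).trans tsum_zero
  rw [tsum_congr e1, ← hfs.tsum_comm, tsum_congr e2]
  have e3 : ∀ m : NI K, (if Cp P m.1 then
      ∑' γ : {γ : K // Mu γ B (a * m.1)}, g γ.1 * Uw P Q W k B γ.1 else 0) =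
      ∑' γ : K, if Cp P m.1 ∧ Mu γ B (a * m.1) then g γ * Uw P Q W k B γ else 0 := by
    intro m
    by_cases hc : Cp P m.1
    · rw [if_pos hc]
      refine (tsum_subtype {γ : K | Mu γ B (a * m.1)} fun γ => g γ * Uw P Q W k B γ).trans ?_
      refine tsum_congr fun γ => ?_
      by_cases h1 : Mu γ B (a * m.1)
      · rw [if_pos ⟨hc, h1⟩, Set.indicator_of_mem (by exact h1)]
      · rw [if_neg fun h2 => h1 h2.2, Set.indicator_of_notMem (by exact h1)]
    · rw [if_neg hc]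
      exact ((tsum_congr fun γ => if_neg fun h1 => hc h1.1).trans tsum_zero).symm
  rw [Finset.sum_congr rfl fun m _ => e3 m, ← Summable.tsum_finsetSum]
  · refine tsum_congr fun γ => ?_
    by_cases hc : c1 γ
    · rw [if_pos hc]
      obtain ⟨m, hm, hm2, hm3⟩ := hc
      by_cases hM : nm m ≤ M
      · rw [Finset.sum_eq_single (⟨m, hm⟩ : NI K)]
        · rw [if_pos ⟨hm2, hm3⟩]
        · intro m' _ hne
          refine if_neg ?_
          rintro ⟨_, h2⟩
          exact hne (Subtype.ext (mul_left_cancel₀ ha (mu_unique h2 hm3)))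
        · intro h1
          refine absurd ?_ h1
          rw [Set.Finite.mem_toFinset, Set.mem_ofPred_eq]
          exact hM
      · rw [hg γ m hm hm2 hm3 (not_le.1 hM)]
        simp
    · rw [if_neg hc]
      symm
      exact Finset.sum_eq_zero fun m _ => if_neg fun h1 => hc ⟨m.1, m.2, h1.1, h1.2⟩
  · intro m _
    refine summable_of_hasFiniteSupport ?_
    refine (mu_fin (K := K) (I := B) (mul_ne_zero ha m.2)).subset ?_
    intro γ hγ
    by_contra h1
    exact hγ (if_neg fun h2 => h1 h2.2)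

section

variable {K : Type} [Field K] [NumberField K]

open scoped Classical in
/-- the coefficients -/
noncomputable def cc (P Z : ℝ) (G : ℝ → ℝ) (m : NI K) : ℝ :=
  if Cp P m.1 then gz G Z (nm m.1) else 0

theorem gz_zero {G : ℝ → ℝ} {Z t : ℝ} (hZ : 0 < Z) (hG : IsG G) (h : 3 * Z < t) :
    gz G Z t = 0 := by
  unfold gz
  rw [hG.high _ ((le_div_iff₀ hZ).2 h.le), mul_zero]

theorem csum {P Z : ℝ} {G : ℝ → ℝ} (hZ : 0 < Z) (hG : IsG G) {f : Ideal (𝓞 K) → ℝ}
    (F : Ideal (𝓞 K) → ℝ) (hf : ∀ m, m ≠ ⊥ → f m = gz G Z (nm m) * F m) :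
    sumC P f = ∑ m ∈ (fin_NI (K := K) (3 * Z)).toFinset, cc P Z G m * F m.1 := by
  rw [sumC_eq (M := 3 * Z) fun I hI _ h => by rw [hf I hI, gz_zero hZ hG h, zero_mul]]
  refine Finset.sum_congr rfl fun m _ => ?_
  unfold cc
  split_ifs with h
  · exact hf m.1 m.2
  · rw [zero_mul]

/-- the sum over the `γ` for a pair of ideals -/
noncomputable def SA (P Q : ℝ) (W H : ℝ → ℝ) (k A B : Ideal (𝓞 K)) : ℝ :=
  ∑' γ : {γ : K // Mu γ B A}, ((‖em K γ.1‖ ^ 2) ^ (1 / 2 : ℝ) * H (‖em K γ.1‖ ^ 2)) *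
    Uw P Q W k B γ.1

theorem Oab_eq [Finite (𝓞 K)ˣ] {P Z Q : ℝ} {W G H : ℝ → ℝ} (hQ : 0 < Q) (hZ : 0 < Z)
    (hW : IsW W) (hG : IsG G) {a b k : Ideal (𝓞 K)} (ha : a ≠ ⊥) (hb : b ≠ ⊥) (hk : k ≠ ⊥)
    (hnm : ∀ (γ : K) (I J : Ideal (𝓞 K)), Mu γ I J → ‖em K γ‖ ^ 2 * nm I = nm J) :
    Oab P Z Q W G H k a b = ∑ n ∈ (fin_NI (K := K) (3 * Z)).toFinset,
      ∑ m ∈ (fin_NI (K := K) (3 * Z)).toFinset, cc P Z G n * cc P Z G m *
        SA P Q W H k (a * m.1) (b * n.1) := by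
  classical
  obtain ⟨δ, hδ, hδW⟩ := hW.low
  unfold Oab
  rw [csum hZ hG (fun n => ∑ m ∈ (fin_NI (K := K) (3 * Z)).toFinset, cc P Z G m *
        SA P Q W H k (a * m.1) (b * n))]
  · refine Finset.sum_congr rfl fun n _ => ?_
    rw [Finset.mul_sum]
    exact Finset.sum_congr rfl fun m _ => by ring
  · intro n hn
    have pa := nm_pos ha
    have pb := nm_pos hb
    have pn := nm_pos hn
    have key : ∀ (γ : K) (m : Ideal (𝓞 K)), Mu γ (b * n) (a * m) →
        ‖em K γ‖ ^ 2 * (nm b * nm n) / (nm a * Z) = nm m / Z := by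
      intro γ m h
      have h1 := hnm _ _ _ h
      rw [nm_mul, nm_mul] at h1
      rw [h1]
      field_simp
    have h1 := swap (K := K) (P := P) (M := 3 * Z) hQ hδ hδW ha hk (fun γ =>
      (nm a / (nm b * nm n)) ^ (1 / 2 : ℝ) * gz G Z (nm n) *
        (H (‖em K γ‖ ^ 2) * G (‖em K γ‖ ^ 2 * (nm b * nm n) / (nm a * Z)))) (by
        intro γ m _ _ h hm
        rw [key γ m h, hG.high _ ((le_div_iff₀ hZ).2 hm.le)]
        ring)
    rw [nm_mul] at h1
    rw [h1, Finset.mul_sum]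
    refine Finset.sum_congr rfl fun m _ => ?_
    unfold cc
    by_cases hm : Cp P m.1
    · rw [if_pos hm, if_pos hm, ← mul_assoc]
      unfold SA
      rw [← tsum_mul_left]
      refine tsum_congr fun γ => ?_
      rw [key γ.1 m.1 γ.2, ← mul_assoc, ← mul_assoc]
      congr 1
      have h2 := hnm _ _ _ γ.2
      rw [nm_mul, nm_mul] at h2
      have pm := nm_pos m.2
      have pu : 0 < ‖em K γ.1‖ ^ 2 := by
        by_contra h3
        have h4 : ‖em K γ.1‖ ^ 2 = 0 := le_antisymm (not_lt.1 h3) (by positivity)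
        rw [h4, zero_mul] at h2
        exact (mul_pos pa pm).ne h2
      have h3 : nm a / (nm b * nm n) = ‖em K γ.1‖ ^ 2 / nm m.1 := by
        rw [div_eq_div_iff (by positivity) (by positivity), h2]
      rw [h3, Real.div_rpow pu.le pm.le]
      unfold gz
      rw [Real.rpow_neg pm.le]
      ring
    · rw [if_neg hm, if_neg hm]
      ring

end

/-- UNF -/
theorem pf_UNF (h1 : T_UN1) (h2 : T_UN2) (h3 : T_NRM) : T_UNF := by
  classical
  intro K _ _ _ P Z Q W G H hQ hZ hW hG hH a b k ha hb hPa hPb hk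
  obtain ⟨_, _, hfin, _, _, _, hnm⟩ := h3 K
  have := hfin
  have hk0 := hk.1
  have hX : ∀ m ∈ (fin_NI (K := K) (3 * Z)).toFinset, m.1 ≠ ⊥ := fun m _ => m.2
  -- the diagonal
  have hD : Dab P Z Q W G a b = ∑ m ∈ (fin_NI (K := K) (3 * Z)).toFinset,
      ∑ n ∈ (fin_NI (K := K) (3 * Z)).toFinset, cc P Z G n * cc P Z G m *
        (if a * m.1 = b * n.1 then TW K P Q W else 0) := by
    unfold Dab
    rw [csum hZ hG fun m => ∑ n ∈ (fin_NI (K := K) (3 * Z)).toFinset, cc P Z G n *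
      (if a * m = b * n.1 then 1 else 0)]
    · rw [Finset.mul_sum]
      refine Finset.sum_congr rfl fun m _ => ?_
      rw [Finset.mul_sum, Finset.mul_sum]
      refine Finset.sum_congr rfl fun n _ => ?_
      split_ifs <;> ring
    · intro m _
      rw [csum hZ hG fun n => gz G Z (nm m) * (if a * m = b * n then 1 else 0)]
      · rw [Finset.mul_sum]
        exact Finset.sum_congr rfl fun n _ => by ring
      · intro n _
        split_ifs <;> ring
  -- the whole sum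
  have hW0 : ∀ q : Ideal (𝓞 K), Q < nm q → W (nm q / Q) = 0 := fun q hq =>
    hW.high _ ((one_le_div hQ).2 hq.le)
  have hB : Bab P Z Q W G k a b = ∑ m ∈ (fin_NI (K := K) (3 * Z)).toFinset,
      ∑ n ∈ (fin_NI (K := K) (3 * Z)).toFinset, cc P Z G n * cc P Z G m *
        ((if a * m.1 = b * n.1 then TW K P Q W else 0) +
          ∑' γ : {γ : K // Mu γ (b * n.1) (a * m.1)}, Uw P Q W k (b * n.1) γ.1) := by
    have hq : ∀ q : Ideal (𝓞 K), Qab P Z G (k * q) a b =
        ∑ m ∈ (fin_NI (K := K) (3 * Z)).toFinset, ∑ n ∈ (fin_NI (K := K) (3 * Z)).toFinset,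
          cc P Z G n * cc P Z G m * (kap (k * q) (a * m.1) (b * n.1) : ℝ) := by
      intro q
      unfold Qab
      rw [csum hZ hG fun m => ∑ n ∈ (fin_NI (K := K) (3 * Z)).toFinset, cc P Z G n *
        (kap (k * q) (a * m) (b * n.1) : ℝ)]
      · refine Finset.sum_congr rfl fun m _ => ?_
        rw [Finset.mul_sum]
        exact Finset.sum_congr rfl fun n _ => by ring
      · intro m _
        rw [csum hZ hG fun n => gz G Z (nm m) * (kap (k * q) (a * m) (b * n) : ℝ)]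
        · rw [Finset.mul_sum]
          exact Finset.sum_congr rfl fun n _ => by ring
        · intro n _
          ring
    unfold Bab
    rw [sumC_eq (M := Q) (fun q _ _ hq' => by rw [hW0 q hq']; ring)]
    have h4 : ∀ q : NI K, (if Cp P q.1 then W (nm q.1 / Q) * nm q.1 * Qab P Z G (k * q.1) a b
        else 0) = ∑ m ∈ (fin_NI (K := K) (3 * Z)).toFinset,
          ∑ n ∈ (fin_NI (K := K) (3 * Z)).toFinset, cc P Z G n * cc P Z G m *
            (if Cp P q.1 then W (nm q.1 / Q) * nm q.1 *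
              (kap (k * q.1) (a * m.1) (b * n.1) : ℝ) else 0) := by
      intro q
      split_ifs with hc
      · rw [hq q.1, Finset.mul_sum]
        refine Finset.sum_congr rfl fun m _ => ?_
        rw [Finset.mul_sum]
        exact Finset.sum_congr rfl fun n _ => by ring
      · simp
    rw [Finset.sum_congr rfl fun q _ => h4 q, Finset.sum_comm]
    refine Finset.sum_congr rfl fun m hm => ?_
    rw [Finset.sum_comm]
    refine Finset.sum_congr rfl fun n hn => ?_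
    rw [← Finset.mul_sum, ← h1 K P Q W hQ hW (a * m.1) (b * n.1) k (mul_ne_zero ha (hX m hm))
      (mul_ne_zero hb (hX n hn)) hk,
      sumC_eq (M := Q) (fun q _ _ hq' => by rw [hW0 q hq']; ring)]
  -- the two parts of the sum over γ
  have hS : ∀ A B : Ideal (𝓞 K), A ≠ ⊥ → B ≠ ⊥ →
      ∑' γ : {γ : K // Mu γ B A}, Uw P Q W k B γ.1 =
        SA P Q W H k A B + SA P Q W H k B A := by
    intro A B hA hB
    have : Finite {γ : K // Mu γ B A} := (mu_fin (K := K) (I := B) hA).to_subtype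
    let e : {γ : K // Mu γ B A} ≃ {γ : K // Mu γ A B} :=
      { toFun := fun γ => ⟨γ.1⁻¹, mu_inv γ.2 (mu_ne' γ.2 hA)⟩
        invFun := fun γ => ⟨γ.1⁻¹, mu_inv γ.2 (mu_ne' γ.2 hB)⟩
        left_inv := fun γ => Subtype.ext (inv_inv _)
        right_inv := fun γ => Subtype.ext (inv_inv _) }
    have h5 : SA P Q W H k B A = ∑' γ : {γ : K // Mu γ B A},
        ((‖em K γ.1‖ ^ 2) ^ (-(1 / 2) : ℝ) * H (‖em K γ.1‖ ^ 2)⁻¹) * Uw P Q W k B γ.1 := by
      unfold SA
      rw [← e.tsum_eq]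
      refine tsum_congr fun γ => ?_
      change ((‖em K γ.1⁻¹‖ ^ 2) ^ (1 / 2 : ℝ) * H (‖em K γ.1⁻¹‖ ^ 2)) * Uw P Q W k A γ.1⁻¹ = _
      rw [h2 K P Q W A B k γ.1 hA hB γ.2, map_inv₀, norm_inv, inv_pow, Real.inv_rpow (by positivity),
        Real.rpow_neg (by positivity)]
    rw [h5]
    unfold SA
    have : Finite {γ : K // Mu γ B A} := (mu_fin (K := K) (I := B) hA).to_subtype
    let _ := Fintype.ofFinite {γ : K // Mu γ B A}
    rw [tsum_fintype, tsum_fintype, tsum_fintype, ← Finset.sum_add_distrib]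
    refine Finset.sum_congr rfl fun γ _ => ?_
    have pu : 0 < ‖em K γ.1‖ ^ 2 := by
      have h6 : em K γ.1 ≠ 0 := (map_ne_zero _).2 (mu_ne' γ.2 hA)
      positivity
    rw [← add_mul, hH.sym _ pu, one_mul]
  rw [hB, hD, Oab_eq hQ hZ hW hG ha hb hk0 hnm, Oab_eq hQ hZ hW hG hb ha hk0 hnm]
  rw [Finset.sum_comm (s := (fin_NI (K := K) (3 * Z)).toFinset) (f := fun n m =>
    cc P Z G n * cc P Z G m * SA P Q W H k (a * m.1) (b * n.1)), ← Finset.sum_add_distrib,
    ← Finset.sum_add_distrib]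
  refine Finset.sum_congr rfl fun m hm => ?_
  rw [← Finset.sum_add_distrib, ← Finset.sum_add_distrib]
  refine Finset.sum_congr rfl fun n hn => ?_
  rw [hS _ _ (mul_ne_zero ha (hX m hm)) (mul_ne_zero hb (hX n hn))]
  ring

end Pool.Agent.H57.HH
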